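import Pool.Agent.helper62.DP7.Spec

/-!
# Discharging

The statement `DIS_stmt` of `Pool.Agent.helper62.DP7.Spec`.
-/

set_option autoImplicit false

namespace Pool.Agent.helper62.DP7

open Finset

open Classical in
/-- what the vertex `z` of degree three gives to the vertex `v` of degree two -/
noncomputable def DIS_om {V : Type} (G : SimpleGraph V) (A : Finset V) (v z : V) : ℕ :=
  if G.Adj v z then 2 else
  if ∃ u ∈ nb G A z, G.Adj v u then
    (if ∃ p ∈ nb G A z, ∃ q ∈ nb G A z, p ≠ q ∧ T8 G A p ∧ T8 G A q then 1 else 2) else 0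

theorem DIS_om_le {V : Type} (G : SimpleGraph V) (A : Finset V) (v z : V) :
    DIS_om G A v z ≤ 2 := by
  unfold DIS_om
  split_ifs <;> omega

theorem DIS_a {V : Type} (G : SimpleGraph V) (A : Finset V) (hR : Red G A) (hF : Far G A)
    (h4 : ∀ x ∈ A, (nb G A x).card = 3 → ∃ y ∈ nb G A x, ¬ T8 G A y) (z : V) (hz : z ∈ A)
    (hz3 : (nb G A z).card = 3) (A2 : Finset V)
    (hA2 : ∀ v ∈ A2, v ∈ A ∧ (nb G A v).card = 2) :
    ∑ v ∈ A2, DIS_om G A v z ≤ 2 := by
  classical
  by_cases hT : T8 G A z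
  · obtain ⟨v0, hv0, hv02⟩ := hT
    have h0 : ∀ v ∈ A2, v ≠ v0 → DIS_om G A v z = 0 := by
      intro v hv hne
      obtain ⟨hvA, hv2⟩ := hA2 v hv
      have h1 : ¬ G.Adj v z := by
        intro h
        exact hne (hR.one z hz v (mem_nb.mpr ⟨hvA, h.symm⟩) v0 hv0 hv2 hv02)
      have h2 : ¬ ∃ u ∈ nb G A z, G.Adj v u := by
        rintro ⟨u, hu, hvu⟩
        obtain ⟨huA, hzu⟩ := mem_nb.mp hu
        exact hF z hz u huA hzu v0 hv0 v (mem_nb.mpr ⟨hvA, hvu.symm⟩) hv02 hv2
      unfold DIS_om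
      rw [if_neg h1, if_neg h2]
    by_cases hmem : v0 ∈ A2
    · rw [Finset.sum_eq_single_of_mem v0 hmem (fun v hv hne => h0 v hv hne)]
      exact DIS_om_le G A v0 z
    · rw [Finset.sum_eq_zero (fun v hv => h0 v hv (fun h => hmem (h ▸ hv)))]
      omega
  · have h1 : ∀ v ∈ A2, ¬ G.Adj v z := fun v hv h =>
      hT ⟨v, mem_nb.mpr ⟨(hA2 v hv).1, h.symm⟩, (hA2 v hv).2⟩
    have key : ∀ v ∈ A2.filter (fun v => ∃ u ∈ nb G A z, G.Adj v u),
        ∃ u, u ∈ nb G A z ∧ G.Adj v u := fun v hv => (Finset.mem_filter.mp hv).2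
    choose! g hg1 hg2 using key
    have hA2' : ∀ v ∈ A2.filter (fun v => ∃ u ∈ nb G A z, G.Adj v u),
        v ∈ A ∧ (nb G A v).card = 2 := fun v hv => hA2 v (Finset.mem_filter.mp hv).1
    have hgT : ∀ v ∈ A2.filter (fun v => ∃ u ∈ nb G A z, G.Adj v u), T8 G A (g v) :=
      fun v hv => ⟨v, mem_nb.mpr ⟨(hA2' v hv).1, (hg2 v hv).symm⟩, (hA2' v hv).2⟩
    have hinj : ∀ v ∈ A2.filter (fun v => ∃ u ∈ nb G A z, G.Adj v u),
        ∀ v' ∈ A2.filter (fun v => ∃ u ∈ nb G A z, G.Adj v u), g v = g v' → v = v' := by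
      intro v hv v' hv' h
      have hgA := (mem_nb.mp (hg1 v hv)).1
      refine hR.one (g v) hgA v (mem_nb.mpr ⟨(hA2' v hv).1, (hg2 v hv).symm⟩) v'
        (mem_nb.mpr ⟨(hA2' v' hv').1, ?_⟩) (hA2' v hv).2 (hA2' v' hv').2
      rw [h]
      exact (hg2 v' hv').symm
    by_cases h2 : ∃ p ∈ nb G A z, ∃ q ∈ nb G A z, p ≠ q ∧ T8 G A p ∧ T8 G A q
    · have hs : ∑ v ∈ A2, DIS_om G A v z
          = (A2.filter (fun v => ∃ u ∈ nb G A z, G.Adj v u)).card := by
        rw [Finset.card_filter]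
        apply Finset.sum_congr rfl
        intro v hv
        unfold DIS_om
        rw [if_neg (h1 v hv), if_pos h2]
      rw [hs]
      obtain ⟨y, hy, hyT⟩ := h4 z hz hz3
      have hle : (A2.filter (fun v => ∃ u ∈ nb G A z, G.Adj v u)).card
          ≤ ((nb G A z).erase y).card := by
        refine Finset.card_le_card_of_injOn g ?_ ?_
        · intro v hv
          rw [Finset.mem_coe] at hv
          rw [Finset.mem_coe]
          exact Finset.mem_erase.mpr ⟨fun h => hyT (h ▸ hgT v hv), hg1 v hv⟩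
        · intro v hv v' hv' h
          exact hinj v hv v' hv' h
      rw [Finset.card_erase_of_mem hy, hz3] at hle
      omega
    · have hs : ∑ v ∈ A2, DIS_om G A v z
          = ∑ v ∈ A2.filter (fun v => ∃ u ∈ nb G A z, G.Adj v u), 2 := by
        rw [Finset.sum_filter]
        apply Finset.sum_congr rfl
        intro v hv
        unfold DIS_om
        rw [if_neg (h1 v hv), if_neg h2]
      rw [hs, Finset.sum_const, smul_eq_mul]
      have hle : (A2.filter (fun v => ∃ u ∈ nb G A z, G.Adj v u)).card ≤ 1 := by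
        rw [Finset.card_le_one]
        intro v hv v' hv'
        refine hinj v hv v' hv' ?_
        by_contra hne
        exact h2 ⟨g v, hg1 v hv, g v', hg1 v' hv', hne, hgT v hv, hgT v' hv'⟩
      omega

theorem DIS_one {V : Type} (G : SimpleGraph V) (A : Finset V) (v u a : V)
    (hvu : G.Adj v u) (hau : u ∈ nb G A a) :
    1 ≤ DIS_om G A v a ∧ (2 ≤ DIS_om G A v a ∨ ∃ p ∈ nb G A a, p ≠ u ∧ T8 G A p) := by
  classical
  unfold DIS_om
  by_cases h1 : G.Adj v a
  · rw [if_pos h1]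
    exact ⟨by omega, Or.inl (by omega)⟩
  · rw [if_neg h1, if_pos ⟨u, hau, hvu⟩]
    by_cases h2 : ∃ p ∈ nb G A a, ∃ q ∈ nb G A a, p ≠ q ∧ T8 G A p ∧ T8 G A q
    · rw [if_pos h2]
      refine ⟨by omega, Or.inr ?_⟩
      obtain ⟨p, hp, q, hq, hpq, hTp, hTq⟩ := h2
      by_cases hpu : p = u
      · exact ⟨q, hq, fun h => hpq (hpu.trans h.symm), hTq⟩
      · exact ⟨p, hp, hpu, hTp⟩
    · rw [if_neg h2]
      exact ⟨by omega, Or.inl (by omega)⟩

open Classical in
theorem DIS_half {V : Type} (G : SimpleGraph V) (A : Finset V) (hR : Red G A)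
    (h5 : ∀ v ∈ A, (nb G A v).card = 2 → ∀ u ∈ nb G A v, ∀ a ∈ nb G A u, ∀ b ∈ nb G A u,
      a ≠ b → a ≠ v → b ≠ v →
      (∃ p ∈ nb G A a, p ≠ u ∧ T8 G A p) → (∃ q ∈ nb G A b, q ≠ u ∧ T8 G A q) → False)
    (v : V) (hv : v ∈ A) (hv2 : (nb G A v).card = 2) (u : V) (hu : u ∈ nb G A v) :
    5 ≤ ∑ z ∈ insert u ((nb G A u).erase v), DIS_om G A v z := by
  have hu3 := hR.sep v hv hv2 u hu
  obtain ⟨huA, hvu⟩ := mem_nb.mp hu
  have hvu' : v ∈ nb G A u := mem_nb.mpr ⟨hv, hvu.symm⟩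
  have hc : ((nb G A u).erase v).card = 2 := by rw [card_erase_of_mem hvu', hu3]
  obtain ⟨a, b, hab, hE⟩ := Finset.card_eq_two.mp hc
  have ha : a ∈ (nb G A u).erase v := by rw [hE]; simp
  have hb : b ∈ (nb G A u).erase v := by rw [hE]; simp
  have hun : u ∉ (nb G A u).erase v := fun h =>
    (mem_nb.mp (Finset.mem_of_mem_erase h)).2.ne rfl
  rw [Finset.sum_insert hun, hE, Finset.sum_pair hab]
  rw [Finset.mem_erase] at ha hb
  obtain ⟨ha1, ha2⟩ := DIS_one G A v u a hvu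
    (mem_nb.mpr ⟨huA, (mem_nb.mp ha.2).2.symm⟩)
  obtain ⟨hb1, hb2⟩ := DIS_one G A v u b hvu
    (mem_nb.mpr ⟨huA, (mem_nb.mp hb.2).2.symm⟩)
  have hu2 : DIS_om G A v u = 2 := by
    unfold DIS_om
    rw [if_pos hvu]
  rcases ha2 with ha2 | ha2
  · omega
  · rcases hb2 with hb2 | hb2
    · omega
    · exact (h5 v hv hv2 u hu a ha.2 b hb.2 hab ha.1 hb.1 ha2 hb2).elim

theorem DIS_b {V : Type} (G : SimpleGraph V) (A : Finset V) (hG : G6 G) (hR : Red G A)
    (h5 : ∀ v ∈ A, (nb G A v).card = 2 → ∀ u ∈ nb G A v, ∀ a ∈ nb G A u, ∀ b ∈ nb G A u,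
      a ≠ b → a ≠ v → b ≠ v →
      (∃ p ∈ nb G A a, p ≠ u ∧ T8 G A p) → (∃ q ∈ nb G A b, q ≠ u ∧ T8 G A q) → False)
    (A3 : Finset V) (hA3 : ∀ z ∈ A, (nb G A z).card = 3 → z ∈ A3)
    (v : V) (hv : v ∈ A) (hv2 : (nb G A v).card = 2) :
    10 ≤ ∑ z ∈ A3, DIS_om G A v z := by
  classical
  obtain ⟨u, w, huw, hE⟩ := Finset.card_eq_two.mp hv2
  have hu : u ∈ nb G A v := by rw [hE]; simp
  have hw : w ∈ nb G A v := by rw [hE]; simp
  have hsub : ∀ x ∈ nb G A v, insert x ((nb G A x).erase v) ⊆ A3 := by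
    intro x hx z hz
    obtain ⟨hxA, hvx⟩ := mem_nb.mp hx
    rcases Finset.mem_insert.mp hz with h | h
    · rw [h]
      exact hA3 x hxA (hR.sep v hv hv2 x hx)
    · obtain ⟨hzv, hzx⟩ := Finset.mem_erase.mp h
      have hzA := (mem_nb.mp hzx).1
      refine hA3 z hzA ?_
      have hle := hR.le3 z hzA
      have hge := hR.ge2 z hzA
      by_contra hne
      have hz2 : (nb G A z).card = 2 := by omega
      exact hzv (hR.one x hxA z hzx v (mem_nb.mpr ⟨hv, hvx.symm⟩) hz2 hv2)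
  have hdis : Disjoint (insert u ((nb G A u).erase v)) (insert w ((nb G A w).erase v)) := by
    rw [Finset.disjoint_left]
    intro z hz1 hz2
    have hvu := (mem_nb.mp hu).2
    have hvw := (mem_nb.mp hw).2
    rcases Finset.mem_insert.mp hz1 with h1 | h1
    · rcases Finset.mem_insert.mp hz2 with h2 | h2
      · exact huw (h1.symm.trans h2)
      · have hwz := (mem_nb.mp (Finset.mem_of_mem_erase h2)).2
        rw [h1] at hwz
        exact hG.c3 v w u hvw hwz hvu.symm
    · have huz := (mem_nb.mp (Finset.mem_of_mem_erase h1)).2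
      rcases Finset.mem_insert.mp hz2 with h2 | h2
      · rw [h2] at huz
        exact hG.c3 v u w hvu huz hvw.symm
      · have hwz := (mem_nb.mp (Finset.mem_of_mem_erase h2)).2
        exact huw (hG.c4 v u z w hvu huz hvw hwz (Finset.mem_erase.mp h1).1.symm)
  have h1 := DIS_half G A hR h5 v hv hv2 u hu
  have h2 := DIS_half G A hR h5 v hv hv2 w hw
  have h3 : ∑ z ∈ insert u ((nb G A u).erase v) ∪ insert w ((nb G A w).erase v),
      DIS_om G A v z ≤ ∑ z ∈ A3, DIS_om G A v z :=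
    Finset.sum_le_sum_of_subset (Finset.union_subset (hsub u hu) (hsub w hw))
  rw [Finset.sum_union hdis] at h3
  omega

theorem DIS : DIS_stmt := by
  classical
  intro V G A hG hR hF h4 h5
  have hdeg : ∀ x ∈ A, (nb G A x).card = 2 ∨ (nb G A x).card = 3 := by
    intro x hx
    have h1 := hR.le3 x hx
    have h2 := hR.ge2 x hx
    omega
  have h10 : 10 * (A.filter (fun x => (nb G A x).card = 2)).card
      ≤ 2 * (A.filter (fun x => (nb G A x).card = 3)).card := by
    have ha : ∀ z ∈ A.filter (fun x => (nb G A x).card = 3),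
        ∑ v ∈ A.filter (fun x => (nb G A x).card = 2), DIS_om G A v z ≤ 2 := by
      intro z hz
      obtain ⟨hzA, hz3⟩ := Finset.mem_filter.mp hz
      exact DIS_a G A hR hF h4 z hzA hz3 _ (fun v hv => Finset.mem_filter.mp hv)
    have hb : ∀ v ∈ A.filter (fun x => (nb G A x).card = 2),
        10 ≤ ∑ z ∈ A.filter (fun x => (nb G A x).card = 3), DIS_om G A v z := by
      intro v hv
      obtain ⟨hvA, hv2⟩ := Finset.mem_filter.mp hv
      exact DIS_b G A hG hR h5 _ (fun z hz hz3 => Finset.mem_filter.mpr ⟨hz, hz3⟩) v hvA hv2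
    have h1 := Finset.sum_le_sum ha
    have h2 := Finset.sum_le_sum hb
    rw [Finset.sum_const, smul_eq_mul] at h1 h2
    rw [Finset.sum_comm] at h1
    omega
  have hcard : A.card = (A.filter (fun x => (nb G A x).card = 2)).card
      + (A.filter (fun x => (nb G A x).card = 3)).card := by
    rw [Finset.card_filter, Finset.card_filter, ← Finset.sum_add_distrib, Finset.card_eq_sum_ones]
    apply Finset.sum_congr rfl
    intro x hx
    rcases hdeg x hx with h | h <;> simp [h]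
  have hsum : ∑ x ∈ A, (nb G A x).card = 2 * (A.filter (fun x => (nb G A x).card = 2)).card
      + 3 * (A.filter (fun x => (nb G A x).card = 3)).card := by
    rw [Finset.card_filter, Finset.card_filter, Finset.mul_sum, Finset.mul_sum,
      ← Finset.sum_add_distrib]
    apply Finset.sum_congr rfl
    intro x hx
    rcases hdeg x hx with h | h <;> simp [h]
  rw [hsum, hcard]
  omega

end Pool.Agent.helper62.DP7
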